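import Pool.Agent.J4H93.HN.Stm

/-! Project HN (helper93, MP_54bae5_nt, Q1, Hahn's question): (E1), (E2), (E3), elementary symmetric sums. -/

set_option autoImplicit false

namespace Pool.Agent.J4H97.HN

open Finset Pool.Agent.J4H93.HN

/-- elementary symmetric sums of the numbers `a p` -/
noncomputable def el (a : ℕ → ℝ) (P : Finset ℕ) (k : ℕ) : ℝ := ∑ T ∈ P.powersetCard k, ∏ p ∈ T, a p

theorem el_zero (a : ℕ → ℝ) (P : Finset ℕ) : el a P 0 = 1 := by
  simp [el]

theorem el_empty (a : ℕ → ℝ) (k : ℕ) : el a ∅ (k + 1) = 0 := by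
  unfold el
  rw [Finset.powersetCard_eq_empty.2 (by simp), sum_empty]

theorem el_insert (a : ℕ → ℝ) {P : Finset ℕ} {x : ℕ} (hx : x ∉ P) (k : ℕ) :
    el a (insert x P) (k + 1) = el a P (k + 1) + a x * el a P k := by
  unfold el
  rw [powersetCard_succ_insert hx, sum_union, sum_image]
  · congr 1
    rw [mul_sum]
    refine sum_congr rfl fun T hT => prod_insert fun h => hx ((mem_powersetCard.1 hT).1 h)
  · intro T hT U hU h
    have h1 : x ∉ T := fun h => hx ((mem_powersetCard.1 (mem_coe.1 hT)).1 h)
    have h2 : x ∉ U := fun h => hx ((mem_powersetCard.1 (mem_coe.1 hU)).1 h)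
    rw [← erase_insert h1, ← erase_insert h2]
    exact congrArg (fun S => erase S x) h
  · rw [disjoint_left]
    intro T hT hT'
    obtain ⟨U, -, rfl⟩ := mem_image.1 hT'
    exact hx ((mem_powersetCard.1 hT).1 (mem_insert_self _ _))

theorem el_nonneg {a : ℕ → ℝ} (ha : ∀ p, 0 ≤ a p) (P : Finset ℕ) (k : ℕ) : 0 ≤ el a P k :=
  sum_nonneg fun _ _ => prod_nonneg fun p _ => ha p

theorem two_terms (s b : ℝ) (k : ℕ) (hs : 0 ≤ s) (hb : 0 ≤ b) :
    s ^ (k + 1) + (k + 1) * s ^ k * b ≤ (b + s) ^ (k + 1) := by
  induction k with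
  | zero => simp; linarith
  | succ k ih =>
    have h1 : (b + s) * (s ^ (k + 1) + (k + 1) * s ^ k * b) ≤ (b + s) * (b + s) ^ (k + 1) :=
      mul_le_mul_of_nonneg_left ih (by linarith)
    have h2 : (b + s) * (b + s) ^ (k + 1) = (b + s) ^ (k + 1 + 1) := by ring
    have h3 : s ^ (k + 1 + 1) + ((k + 1 : ℕ) + 1) * s ^ (k + 1) * b ≤
        (b + s) * (s ^ (k + 1) + (k + 1) * s ^ k * b) := by
      have h4 : 0 ≤ (k + 1) * s ^ k * b ^ 2 := by positivity
      have h5 : (b + s) * (s ^ (k + 1) + (k + 1) * s ^ k * b) =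
          s ^ (k + 1 + 1) + ((k + 1 : ℕ) + 1) * s ^ (k + 1) * b + (k + 1) * s ^ k * b ^ 2 := by
        push_cast
        ring
      rw [h5]
      linarith
    rw [← h2]
    exact h3.trans h1

theorem el_le {a : ℕ → ℝ} (ha : ∀ p, 0 ≤ a p) (P : Finset ℕ) :
    ∀ k, el a P k ≤ (∑ p ∈ P, a p) ^ k / (Nat.factorial k : ℝ) := by
  induction P using Finset.induction_on with
  | empty =>
    intro k
    rcases k with _ | k
    · simp [el_zero]
    · rw [el_empty]
      positivity
  | insert x P hx ih =>
    intro k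
    rcases k with _ | k
    · simp [el_zero]
    · rw [el_insert a hx, sum_insert hx]
      have h0 : 0 ≤ ∑ p ∈ P, a p := sum_nonneg fun p _ => ha p
      generalize (∑ p ∈ P, a p) = s at *
      have hax := ha x
      have h1 : s ^ (k + 1) + (k + 1) * s ^ k * a x ≤ (a x + s) ^ (k + 1) := by
        have := two_terms s (a x) k h0 hax
        exact this
      have h2 : (0 : ℝ) < (Nat.factorial k : ℝ) := by positivity
      have h3 : (Nat.factorial (k + 1) : ℝ) = (k + 1) * Nat.factorial k := by
        rw [Nat.factorial_succ]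
        push_cast
        ring
      calc el a P (k + 1) + a x * el a P k
          ≤ s ^ (k + 1) / (Nat.factorial (k + 1) : ℝ) + a x * (s ^ k / (Nat.factorial k : ℝ)) :=
            add_le_add (ih (k + 1)) (mul_le_mul_of_nonneg_left (ih k) hax)
        _ = (s ^ (k + 1) + (k + 1) * s ^ k * a x) / (Nat.factorial (k + 1) : ℝ) := by
            rw [h3]
            field_simp
        _ ≤ (a x + s) ^ (k + 1) / (Nat.factorial (k + 1) : ℝ) := by gcongr

theorem t_E1 : S_E1 := by
  intro P k
  exact el_le (a := fun p => (1 : ℝ) / p) (fun p => by positivity) P k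

/-- the step of the lower bound -/
theorem el_step {a : ℕ → ℝ} {δ : ℝ} (ha : ∀ p, 0 ≤ a p) (P : Finset ℕ) (hδ : ∀ p ∈ P, a p ≤ δ) :
    ∀ i : ℕ, el a P i * ((∑ p ∈ P, a p) - i * δ) ≤ (i + 1) * el a P (i + 1) := by
  induction P using Finset.induction_on with
  | empty =>
    intro i
    rw [el_empty, sum_empty, mul_zero, zero_sub]
    rcases i with _ | i
    · simp
    · rw [el_empty, zero_mul]
  | insert x P hx ih =>
    have ih' := ih fun p hp => hδ p (mem_insert_of_mem hp)
    have hxd := hδ x (mem_insert_self x P)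
    intro i
    rw [el_insert a hx, sum_insert hx]
    rcases i with _ | i
    · have h1 := ih' 0
      simp only [el_zero] at h1 ⊢
      push_cast at h1 ⊢
      linarith
    · rw [el_insert a hx]
      have h1 := ih' (i + 1)
      have h2 := ih' i
      have h3 := el_nonneg ha P i
      have h4 := el_nonneg ha P (i + 1)
      have h5 := ha x
      push_cast at h1 h2 ⊢
      generalize (∑ p ∈ P, a p) = s at *
      have h6 : a x * (el a P i * (s - i * δ)) ≤ a x * ((i + 1) * el a P (i + 1)) :=
        mul_le_mul_of_nonneg_left h2 h5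
      have h7 : a x * (el a P i * (a x + s - (i + 1) * δ)) ≤ a x * (el a P i * (s - i * δ)) := by
        refine mul_le_mul_of_nonneg_left (mul_le_mul_of_nonneg_left ?_ h3) h5
        linarith
      nlinarith

theorem el_ge {a : ℕ → ℝ} {δ : ℝ} (ha : ∀ p, 0 ≤ a p) (hδ0 : 0 ≤ δ) (P : Finset ℕ) (hδ : ∀ p ∈ P, a p ≤ δ) (k : ℕ)
    (hk : k * δ ≤ ∑ p ∈ P, a p) :
    ∀ i ≤ k, ((∑ p ∈ P, a p) - k * δ) ^ i / (Nat.factorial i : ℝ) ≤ el a P i := by
  intro i
  induction i with
  | zero => intro _; simp [el_zero]
  | succ i ih =>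
    intro hi
    have h1 := ih (by omega)
    have h2 := el_step ha P hδ i
    have h3 := el_nonneg ha P i
    have h4 : (i : ℝ) ≤ k := by exact_mod_cast (by omega : i ≤ k)
    generalize (∑ p ∈ P, a p) = s at *
    have h5 : el a P i * (s - k * δ) ≤ el a P i * (s - i * δ) := by
      refine mul_le_mul_of_nonneg_left ?_ h3
      have := mul_le_mul_of_nonneg_right h4 hδ0
      linarith
    have h6 : (s - k * δ) ^ i / (Nat.factorial i : ℝ) * (s - k * δ) ≤ el a P i * (s - k * δ) :=
      mul_le_mul_of_nonneg_right h1 (by linarith)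
    have h7 : (Nat.factorial (i + 1) : ℝ) = (i + 1) * Nat.factorial i := by
      rw [Nat.factorial_succ]
      push_cast
      ring
    have h8 : (s - k * δ) ^ (i + 1) / (Nat.factorial (i + 1) : ℝ) =
        (s - k * δ) ^ i / (Nat.factorial i : ℝ) * (s - k * δ) / (i + 1) := by
      rw [h7, pow_succ]
      have : (0 : ℝ) < (Nat.factorial i : ℝ) := by positivity
      field_simp
    rw [h8, div_le_iff₀ (by positivity)]
    linarith

theorem t_E2 : S_E2 := by
  intro P w k hw hP hk
  have h1 := el_ge (a := fun p : ℕ => (1 : ℝ) / p) (δ := 1 / w) (fun p => by positivity) (by positivity) P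
    (fun p hp => one_div_le_one_div_of_le hw (hP p hp)) k (by rw [mul_one_div]; exact hk) k le_rfl
  rw [mul_one_div] at h1
  exact h1

/-- products of elementary symmetric sums -/
theorem el_mul {a : ℕ → ℝ} (ha : ∀ p, 0 ≤ a p) (P : Finset ℕ) :
    ∀ j k, el a P (j + k) ≤ el a P j * el a P k := by
  induction P using Finset.induction_on with
  | empty =>
    intro j k
    rcases j with _ | j
    · rw [el_zero, zero_add, one_mul]
    · rw [show j + 1 + k = (j + k) + 1 by ring, el_empty, el_empty, zero_mul]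
  | insert x P hx ih =>
    intro j k
    rcases j with _ | j
    · rw [el_zero, zero_add, one_mul]
    · rcases k with _ | k
      · rw [el_zero, add_zero, mul_one]
      · rw [show j + 1 + (k + 1) = (j + 1 + k) + 1 by ring, el_insert a hx, el_insert a hx, el_insert a hx]
        have h1 := ih (j + 1) (k + 1)
        have h2 := ih j (k + 1)
        rw [show j + 1 + (k + 1) = (j + 1 + k) + 1 by ring] at h1
        rw [show j + (k + 1) = j + 1 + k by ring] at h2
        have n1 := el_nonneg ha P j
        have n2 := el_nonneg ha P (j + 1)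
        have n3 := el_nonneg ha P k
        have n4 := el_nonneg ha P (k + 1)
        have n5 := ha x
        have h3 := mul_le_mul_of_nonneg_left h2 n5
        have h4 : 0 ≤ a x * (el a P (j + 1) * el a P k) := by positivity
        have h5 : 0 ≤ a x * a x * (el a P j * el a P k) := by positivity
        nlinarith

theorem t_E3 : S_E3 := by
  intro P
  exact el_mul (a := fun p : ℕ => (1 : ℝ) / p) (fun p => by positivity) P 8 3

end Pool.Agent.J4H97.HN
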