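import Pool.Agent.J4H93.HN.Stm

/-! Project HN (helper93, MP_54bae5_nt, Q1, Hahn's question): (FAC), one factor of the characteristic function. -/

set_option autoImplicit false

namespace Pool.Agent.J4H97.HN

open Finset Pool.Agent.J4H93.HN

theorem t_FAC : S_FAC := by
  intro q t d hq0 hq1 hd hm
  -- distance to the nearest integer
  have h1 := hm (round t)
  have h2 : |t - round t| ≤ 1 / 2 := abs_sub_round t
  set u : ℝ := t - round t with hu
  have hper : Complex.exp (2 * Real.pi * Complex.I * t) = Complex.exp (2 * Real.pi * Complex.I * u) := by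
    have e : (2 * Real.pi * Complex.I * t : ℂ) = 2 * Real.pi * Complex.I * u + (round t : ℤ) * (2 * Real.pi * Complex.I) := by
      rw [hu]
      push_cast
      ring
    rw [e, Complex.exp_add, Complex.exp_int_mul_two_pi_mul_I, mul_one]
  rw [hper]
  have e1 : (2 * Real.pi * Complex.I * u : ℂ) = ((2 * Real.pi * u : ℝ) : ℂ) * Complex.I := by
    push_cast
    ring
  have hsq : ‖1 - (q : ℂ) + q * Complex.exp (2 * Real.pi * Complex.I * u)‖ ^ 2 =
      1 - 4 * q * (1 - q) * Real.sin (Real.pi * u) ^ 2 := by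
    rw [e1, Complex.exp_mul_I, ← Complex.ofReal_cos, ← Complex.ofReal_sin, ← Complex.normSq_eq_norm_sq,
      Complex.normSq_apply]
    simp only [Complex.add_re, Complex.sub_re, Complex.one_re, Complex.ofReal_re, Complex.mul_re, Complex.ofReal_im,
      Complex.I_re, Complex.I_im, Complex.add_im, Complex.sub_im, Complex.one_im, Complex.mul_im]
    have c1 : Real.cos (2 * Real.pi * u) = 1 - 2 * Real.sin (Real.pi * u) ^ 2 := by
      rw [show 2 * Real.pi * u = 2 * (Real.pi * u) by ring, Real.cos_two_mul, Real.cos_sq']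
      ring
    have c2 := Real.sin_sq_add_cos_sq (2 * Real.pi * u)
    have c3 : Real.sin (2 * Real.pi * u) ^ 2 = 1 - Real.cos (2 * Real.pi * u) ^ 2 := by linarith
    ring_nf
    ring_nf at c1 c3
    rw [c3, c1]
    ring
  -- sin (π |u|) ≥ 2 |u|
  have hs : 2 * |u| ≤ Real.sin (Real.pi * |u|) := by
    have h3 := Real.mul_le_sin (x := Real.pi * |u|) (by positivity) (by nlinarith [Real.pi_pos])
    calc 2 * |u| = 2 / Real.pi * (Real.pi * |u|) := by field_simp
      _ ≤ _ := h3
  have hs2 : (2 * d) ^ 2 ≤ Real.sin (Real.pi * u) ^ 2 := by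
    have h4 : Real.sin (Real.pi * u) ^ 2 = Real.sin (Real.pi * |u|) ^ 2 := by
      rcases abs_cases u with ⟨h, _⟩ | ⟨h, _⟩
      · rw [h]
      · rw [h, mul_neg, Real.sin_neg, neg_sq]
    rw [h4]
    exact pow_le_pow_left₀ (by positivity) (by linarith) 2
  have h5 : ‖1 - (q : ℂ) + q * Complex.exp (2 * Real.pi * Complex.I * u)‖ ^ 2 ≤ Real.exp (-(4 * q * d ^ 2)) ^ 2 := by
    rw [hsq, ← Real.exp_nat_mul]
    have h6 := Real.add_one_le_exp (-(8 * q * d ^ 2))
    have h7 : 2 * q * (2 * d) ^ 2 ≤ 4 * q * (1 - q) * Real.sin (Real.pi * u) ^ 2 := by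
      have h8 : 2 * q ≤ 4 * q * (1 - q) := by nlinarith
      exact mul_le_mul h8 hs2 (by positivity) (by nlinarith)
    have h9 : ((2 : ℕ) : ℝ) * -(4 * q * d ^ 2) = -(8 * q * d ^ 2) := by push_cast; ring
    rw [h9]
    nlinarith
  exact le_of_sq_le_sq h5 (Real.exp_pos _).le

end Pool.Agent.J4H97.HN
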