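import Pool.Agent.J4H93.HN.Stm

/-! Project HN (helper93, MP_54bae5_nt, Q1, Hahn's question): (SZ), the size of the members of `SS`. -/

set_option autoImplicit false

namespace Pool.Agent.J4H97.HN

open Finset Pool.Agent.J4H93.HN

theorem t_SZ : S_SZ := by
  intro Y k P0 P1 τ h n hn
  unfold SS at hn
  obtain ⟨⟨T, U⟩, hTU, rfl⟩ := mem_image.1 hn
  rw [mem_product, mem_powersetCard, mem_powersetCard] at hTU
  obtain ⟨⟨hT, hTc⟩, hU, hUc⟩ := hTU
  dsimp only at hT hTc hU hUc ⊢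
  have hYpos : 0 < Y := by
    have := h.hY
    omega
  have hT1 : 1 ≤ ∏ p ∈ T, p := Finset.prod_pos fun p hp => (h.p0 p (hT hp)).1.pos
  have hTk : ∏ p ∈ T, p ≤ Y ^ 30 := by
    have h1 : (∏ p ∈ T, p) ^ k ≤ (Y ^ 30) ^ k := by
      rw [← Finset.prod_pow]
      calc ∏ p ∈ T, p ^ k ≤ ∏ _p ∈ T, Y ^ 30 := Finset.prod_le_prod' fun p hp => (h.p0 p (hT hp)).2
        _ = (Y ^ 30) ^ k := by rw [prod_const, hTc]
    have hk : k ≠ 0 := by
      have := h.k2
      omega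
    exact (Nat.pow_le_pow_iff_left hk).1 h1
  have hU1 : Y ^ 319 ≤ ∏ q ∈ U, q := by
    calc Y ^ 319 = ∏ _q ∈ U, Y ^ 29 := by rw [prod_const, hUc, ← pow_mul]
      _ ≤ ∏ q ∈ U, q := Finset.prod_le_prod' fun q hq => (h.p1 q (hU hq)).2.1.le
  have hU2 : ∏ q ∈ U, q ≤ Y ^ 330 := by
    calc ∏ q ∈ U, q ≤ ∏ _q ∈ U, Y ^ 30 := Finset.prod_le_prod' fun q hq => (h.p1 q (hU hq)).2.2
      _ = Y ^ 330 := by rw [prod_const, hUc, ← pow_mul]
  have hd : Disjoint T U := Finset.disjoint_of_subset_left hT (Finset.disjoint_of_subset_right hU h.dis)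
  have hp : ∀ p ∈ T ∪ U, p.Prime := by
    intro p hp
    rcases mem_union.1 hp with hp | hp
    · exact (h.p0 p (hT hp)).1
    · exact (h.p1 p (hU hp)).1
  have e : (∏ p ∈ T, p) * ∏ q ∈ U, q = ∏ p ∈ T ∪ U, p := (Finset.prod_union hd).symm
  refine ⟨?_, ?_, ?_, ?_⟩
  · calc Y ^ 319 ≤ ∏ q ∈ U, q := hU1
      _ ≤ (∏ p ∈ T, p) * ∏ q ∈ U, q := Nat.le_mul_of_pos_left _ hT1
  · calc (∏ p ∈ T, p) * ∏ q ∈ U, q ≤ Y ^ 30 * Y ^ 330 := Nat.mul_le_mul hTk hU2
      _ = Y ^ 360 := by rw [← pow_add]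
  · rw [e]
    have h5 : ∀ S : Finset ℕ, (∀ p ∈ S, p.Prime) → Squarefree (∏ p ∈ S, p) := by
      intro S
      induction S using Finset.induction_on with
      | empty => intro _; simp
      | insert x S hx ih =>
        intro hS
        rw [prod_insert hx, Nat.squarefree_mul]
        · exact ⟨(hS x (mem_insert_self _ _)).prime.squarefree, ih fun p hp => hS p (mem_insert_of_mem hp)⟩
        · refine Nat.Coprime.prod_right fun p hp => ?_
          exact (Nat.coprime_primes (hS x (mem_insert_self _ _)) (hS p (mem_insert_of_mem hp))).2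
            fun h => hx (h ▸ hp)
    exact h5 _ hp
  · intro p hpp hpd
    rw [e, Prime.dvd_finsetProd_iff hpp.prime] at hpd
    obtain ⟨a, ha, hpa⟩ := hpd
    have h6 : p = a := (Nat.prime_dvd_prime_iff_eq hpp (hp a ha)).1 hpa
    rw [h6]
    rcases mem_union.1 ha with ha | ha
    · exact mem_union_left _ (hT ha)
    · exact mem_union_right _ (hU ha)

end Pool.Agent.J4H97.HN
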