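import Pool.Agent.J4H93.HN.Stm

/-! Project HN (helper93, MP_54bae5_nt, Q1, Hahn's question): (TAIL), large deviations. -/

set_option autoImplicit false

namespace Pool.Agent.J4H97.HN

open Finset Pool.Agent.J4H93.HN

/-- the generating function of the weights -/
theorem gen (B : Finset ℕ) (q : ℝ) (x : ℕ → ℝ) :
    ∑ S ∈ B.powerset, wt B q S * ∏ n ∈ S, x n = ∏ n ∈ B, (q * x n + (1 - q)) := by
  rw [Finset.prod_add]
  refine sum_congr rfl fun S hS => ?_
  unfold wt
  rw [prod_mul_distrib, prod_const, prod_const, card_sdiff_of_subset (mem_powerset.1 hS)]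
  ring

theorem wt_nonneg (B : Finset ℕ) {q : ℝ} (h0 : 0 ≤ q) (h1 : q ≤ 1) (S : Finset ℕ) : 0 ≤ wt B q S :=
  mul_nonneg (pow_nonneg h0 _) (pow_nonneg (by linarith) _)

theorem exp_le_chord {t : ℝ} (h0 : 0 ≤ t) (h1 : t ≤ 1) : Real.exp t ≤ 1 + t * (Real.exp 1 - 1) := by
  have h := convexOn_exp.2 (Set.mem_univ (0 : ℝ)) (Set.mem_univ (1 : ℝ)) (by linarith : 0 ≤ 1 - t) h0 (by ring)
  simp only [smul_eq_mul, mul_zero, mul_one, zero_add, Real.exp_zero] at h
  linarith

theorem t_TAIL : S_TAIL := by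
  intro B N hN hB hR
  have hR0 : 0 < R B := by linarith
  have hq0 : 0 ≤ 1 / R B := by positivity
  have hq1 : 1 / R B ≤ 1 := by
    rw [div_le_one hR0]
    linarith
  have hN' : (0 : ℝ) < N := by exact_mod_cast hN
  constructor
  · have h1 : ∑ S ∈ B.powerset.filter (fun S => 2 ≤ R S), wt B (1 / R B) S ≤
        ∑ S ∈ B.powerset, wt B (1 / R B) S * (Real.exp (-(2 * N)) * ∏ n ∈ S, Real.exp (N * (1 / (n : ℝ)))) := by
      calc ∑ S ∈ B.powerset.filter (fun S => 2 ≤ R S), wt B (1 / R B) S
          ≤ ∑ S ∈ B.powerset.filter (fun S => 2 ≤ R S),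
              wt B (1 / R B) S * (Real.exp (-(2 * N)) * ∏ n ∈ S, Real.exp (N * (1 / (n : ℝ)))) := by
            refine sum_le_sum fun S hS => ?_
            have h2 : 2 ≤ R S := (mem_filter.1 hS).2
            have h3 : 1 ≤ Real.exp (-(2 * N)) * ∏ n ∈ S, Real.exp (N * (1 / (n : ℝ))) := by
              rw [← Real.exp_sum, ← mul_sum, ← Real.exp_add]
              apply Real.one_le_exp
              have h4 : ∑ n ∈ S, 1 / (n : ℝ) = R S := rfl
              rw [h4]
              nlinarith
            exact le_mul_of_one_le_right (wt_nonneg B hq0 hq1 S) h3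
        _ ≤ _ := by
            refine sum_le_sum_of_subset_of_nonneg (filter_subset _ _) fun S _ _ => ?_
            exact mul_nonneg (wt_nonneg B hq0 hq1 S) (by positivity)
    refine h1.trans ?_
    have h5 : ∑ S ∈ B.powerset, wt B (1 / R B) S * (Real.exp (-(2 * N)) * ∏ n ∈ S, Real.exp (N * (1 / (n : ℝ)))) =
        Real.exp (-(2 * N)) * ∏ n ∈ B, (1 / R B * Real.exp (N * (1 / (n : ℝ))) + (1 - 1 / R B)) := by
      rw [← gen B (1 / R B) fun n => Real.exp (N * (1 / (n : ℝ))), mul_sum]
      refine sum_congr rfl fun S _ => ?_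
      ring
    rw [h5]
    have h6 : ∏ n ∈ B, (1 / R B * Real.exp (N * (1 / (n : ℝ))) + (1 - 1 / R B)) ≤
        ∏ n ∈ B, Real.exp (1 / R B * ((Real.exp 1 - 1) * N) * (1 / (n : ℝ))) := by
      refine prod_le_prod (fun n _ => ?_) fun n hn => ?_
      · have := Real.exp_pos (N * (1 / (n : ℝ)))
        have : 0 ≤ 1 / R B * Real.exp (N * (1 / (n : ℝ))) := by positivity
        linarith
      · have h7 : (N : ℝ) ≤ n := by exact_mod_cast hB n hn
        have h8 : N * (1 / (n : ℝ)) ≤ 1 := by
          rw [mul_one_div, div_le_one (by linarith)]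
          exact h7
        have h9 := exp_le_chord (by positivity : 0 ≤ N * (1 / (n : ℝ))) h8
        have h10 := Real.add_one_le_exp (1 / R B * ((Real.exp 1 - 1) * N) * (1 / (n : ℝ)))
        refine le_trans ?_ h10
        have h11 := mul_le_mul_of_nonneg_left h9 hq0
        have h12 : 1 / R B * (1 + N * (1 / (n : ℝ)) * (Real.exp 1 - 1)) =
          1 / R B + 1 / R B * ((Real.exp 1 - 1) * N) * (1 / (n : ℝ)) := by ring
        linarith
    have h13 : ∏ n ∈ B, Real.exp (1 / R B * ((Real.exp 1 - 1) * N) * (1 / (n : ℝ))) =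
        Real.exp ((Real.exp 1 - 1) * N) := by
      rw [← Real.exp_sum, ← mul_sum]
      have h4 : ∑ n ∈ B, 1 / (n : ℝ) = R B := rfl
      rw [h4]
      congr 1
      field_simp
    rw [h13] at h6
    calc Real.exp (-(2 * N)) * ∏ n ∈ B, (1 / R B * Real.exp (N * (1 / (n : ℝ))) + (1 - 1 / R B))
        ≤ Real.exp (-(2 * N)) * Real.exp ((Real.exp 1 - 1) * N) := mul_le_mul_of_nonneg_left h6 (Real.exp_pos _).le
      _ ≤ Real.exp (-(N : ℝ) / 4) := by
          rw [← Real.exp_add]
          apply Real.exp_le_exp.2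
          have := Real.exp_one_lt_d9
          nlinarith
  · unfold wt
    rw [card_empty, pow_zero, one_mul, Nat.sub_zero]
    have h1 : R B ≤ B.card * (1 / (N : ℝ)) := by
      unfold R
      rw [← nsmul_eq_mul, ← sum_const]
      refine sum_le_sum fun n hn => ?_
      exact one_div_le_one_div_of_le hN' (by exact_mod_cast hB n hn)
    have h2 : (N : ℝ) ≤ B.card * (1 / R B) := by
      rw [mul_one_div, le_div_iff₀ hR0]
      rw [mul_one_div, le_div_iff₀ hN'] at h1
      linarith
    calc (1 - 1 / R B) ^ B.card ≤ Real.exp (-(1 / R B)) ^ B.card := by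
          refine pow_le_pow_left₀ (by linarith) ?_ _
          have := Real.add_one_le_exp (-(1 / R B))
          linarith
      _ = Real.exp (-(B.card * (1 / R B))) := by
          rw [← Real.exp_nat_mul]
          congr 1
          ring
      _ ≤ Real.exp (-(N : ℝ)) := Real.exp_le_exp.2 (by linarith)

end Pool.Agent.J4H97.HN
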